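import Pool.Agent.Helper93.PL.St

/-! # PL module Mok: the `k`-th moment -/

set_option autoImplicit false

noncomputable section

namespace Pool.Agent.Helper79.PL

open Pool.Agent.Helper61.PV Pool.Agent.Helper93.PL Finset

theorem exp_le_two {t : ℝ} (h0 : 0 ≤ t) (h1 : t ≤ 1 / 2) : Real.exp t ≤ 1 + 2 * t := by
  have h2 := Real.add_one_le_exp (-t)
  have h3 : Real.exp t * Real.exp (-t) = 1 := by rw [← Real.exp_add]; simp
  have h4 : 0 < Real.exp t := Real.exp_pos t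
  have h5 : Real.exp t * (1 - t) ≤ 1 := by
    rw [← h3]
    apply mul_le_mul_of_nonneg_left _ h4.le
    linarith
  nlinarith

theorem one_le_ratio {n : ℕ} (hn : 1 ≤ n) : (1 : ℝ) ≤ (n : ℝ) / Nat.totient n := by
  have h1 : 0 < Nat.totient n := Nat.totient_pos.2 hn
  rw [one_le_div (by exact_mod_cast h1)]
  exact_mod_cast Nat.totient_le n

theorem qd_pos {k : ℕ} {m : Fin k → ℕ} (hm : StrictMono m) (j : Fin k) : 1 ≤ qd m j := by
  unfold qd
  refine Nat.succ_le_of_lt (Finset.prod_pos ?_)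
  intro i hi
  have := hm (Finset.mem_filter.1 hi).2
  omega

theorem qd_le {k : ℕ} (m : Fin k → ℕ) (j : Fin k) : qd m j ≤ m j ^ (j : ℕ) := by
  unfold qd
  have h1 : #(univ.filter (fun i : Fin k => i < j)) = (j : ℕ) := by
    have h2 : univ.filter (fun i : Fin k => i < j) = Finset.Iio j := by
      ext i
      simp
    rw [h2, Fin.card_Iio]
  calc ∏ i ∈ univ.filter (fun i => i < j), (m j - m i)
      ≤ ∏ i ∈ univ.filter (fun i => i < j), m j :=
        Finset.prod_le_prod' fun i _ => Nat.sub_le _ _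
    _ = m j ^ (j : ℕ) := by rw [Finset.prod_const, h1]

/-- upper bound -/
theorem coreU {k : ℕ} {N w E : Fin k → ℝ} {S P Pp t δ δ₁ : ℝ} (hN : ∀ j, 0 < N j) (hP : 0 ≤ P)
    (hw : ∀ j, 1 ≤ w j) (hE : ∀ j, E j ≤ δ₁ * N j) (hE0 : ∀ j, 0 ≤ E j)
    (h : (∏ j, N j) * S ≤ Pp * ∏ j, (w j * N j + E j))
    (hPp : Pp ≤ Real.exp t * P) (ht : t ≤ δ₁) (hδ₁ : δ₁ = δ / (8 * (k + 1)))
    (hδ : 0 < δ) (hδ1 : δ < 1) : S ≤ (1 + δ) * ((∏ j, w j) * P) := by
  have hk : (0 : ℝ) < k + 1 := by positivity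
  have hd0 : 0 ≤ δ₁ := by rw [hδ₁]; positivity
  have h1 : ∀ j, w j * N j + E j ≤ Real.exp δ₁ * (w j * N j) := by
    intro j
    have h2 : E j ≤ δ₁ * (w j * N j) :=
      (hE j).trans (mul_le_mul_of_nonneg_left (by nlinarith [hw j, hN j]) hd0)
    have h3 : 1 + δ₁ ≤ Real.exp δ₁ := by linarith [Real.add_one_le_exp δ₁]
    have h4 : 0 ≤ w j * N j := mul_nonneg (by linarith [hw j]) (hN j).le
    nlinarith [mul_le_mul_of_nonneg_right h3 h4]
  have h2 : ∏ j, (w j * N j + E j) ≤ Real.exp δ₁ ^ k * ((∏ j, w j) * ∏ j, N j) := by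
    calc ∏ j, (w j * N j + E j) ≤ ∏ j, (Real.exp δ₁ * (w j * N j)) := by
          apply Finset.prod_le_prod
          · intro j _
            have := hE0 j
            have : 0 ≤ w j * N j := mul_nonneg (by linarith [hw j]) (hN j).le
            linarith
          · intro j _
            exact h1 j
      _ = _ := by
          rw [Finset.prod_mul_distrib, Finset.prod_mul_distrib, Finset.prod_const,
            Finset.card_univ, Fintype.card_fin]
  have hNp : 0 < ∏ j, N j := Finset.prod_pos fun j _ => hN j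
  have hwp : 0 ≤ ∏ j, w j := Finset.prod_nonneg fun j _ => by linarith [hw j]
  have h0 : 0 ≤ ∏ j, (w j * N j + E j) := Finset.prod_nonneg fun j _ => by
    have := hE0 j
    have : 0 ≤ w j * N j := mul_nonneg (by linarith [hw j]) (hN j).le
    linarith
  have h3 : Real.exp t * Real.exp δ₁ ^ k ≤ 1 + δ := by
    have h4 : Real.exp t ≤ Real.exp δ₁ := Real.exp_le_exp.2 ht
    have h5 : Real.exp δ₁ * Real.exp δ₁ ^ k = Real.exp (δ / 8) := by
      rw [← Real.exp_nat_mul, ← Real.exp_add]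
      congr 1
      rw [hδ₁]
      field_simp
      ring
    have h6 : Real.exp (δ / 8) ≤ 1 + 2 * (δ / 8) := exp_le_two (by positivity) (by linarith)
    calc Real.exp t * Real.exp δ₁ ^ k ≤ Real.exp δ₁ * Real.exp δ₁ ^ k :=
          mul_le_mul_of_nonneg_right h4 (by positivity)
      _ ≤ 1 + δ := by rw [h5]; linarith
  have h4 : (∏ j, N j) * S ≤ (∏ j, N j) * ((1 + δ) * ((∏ j, w j) * P)) := by
    calc (∏ j, N j) * S ≤ Pp * ∏ j, (w j * N j + E j) := h
      _ ≤ (Real.exp t * P) * ∏ j, (w j * N j + E j) := mul_le_mul_of_nonneg_right hPp h0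
      _ ≤ (Real.exp t * P) * (Real.exp δ₁ ^ k * ((∏ j, w j) * ∏ j, N j)) :=
          mul_le_mul_of_nonneg_left h2 (by positivity)
      _ = (Real.exp t * Real.exp δ₁ ^ k) * ((∏ j, N j) * ((∏ j, w j) * P)) := by ring
      _ ≤ (1 + δ) * ((∏ j, N j) * ((∏ j, w j) * P)) :=
          mul_le_mul_of_nonneg_right h3 (by positivity)
      _ = _ := by ring
  exact le_of_mul_le_mul_left h4 hNp

/-- lower bound -/
theorem coreL {k : ℕ} {N w E : Fin k → ℝ} {S P Pm t δ δ₁ : ℝ} (hN : ∀ j, 0 < N j) (hP : 0 ≤ P)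
    (hw : ∀ j, 1 ≤ w j) (hE : ∀ j, E j ≤ δ₁ * N j)
    (h : Pm * ∏ j, (w j * N j - E j) ≤ (∏ j, N j) * S)
    (hPm : (1 - t) * P ≤ Pm) (ht : t ≤ δ₁) (hδ₁ : δ₁ = δ / (8 * (k + 1)))
    (hδ : 0 < δ) (hδ1 : δ < 1) : (1 - δ) * ((∏ j, w j) * P) ≤ S := by
  have hk : (1 : ℝ) ≤ k + 1 := by
    have : (0 : ℝ) ≤ k := Nat.cast_nonneg k
    linarith
  have hd0 : 0 ≤ δ₁ := by rw [hδ₁]; positivity
  have hd1 : δ₁ ≤ 1 / 8 := by
    rw [hδ₁, div_le_iff₀ (by positivity)]
    nlinarith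
  have hNp : 0 < ∏ j, N j := Finset.prod_pos fun j _ => hN j
  have hwp : 0 ≤ ∏ j, w j := Finset.prod_nonneg fun j _ => by linarith [hw j]
  have h1 : ∀ j, (1 - δ₁) * (w j * N j) ≤ w j * N j - E j := by
    intro j
    have h2 : E j ≤ δ₁ * (w j * N j) :=
      (hE j).trans (mul_le_mul_of_nonneg_left (by nlinarith [hw j, hN j]) hd0)
    linarith
  have h2 : (1 - δ₁) ^ k * ((∏ j, w j) * ∏ j, N j) ≤ ∏ j, (w j * N j - E j) := by
    calc (1 - δ₁) ^ k * ((∏ j, w j) * ∏ j, N j) = ∏ j, ((1 - δ₁) * (w j * N j)) := by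
          rw [Finset.prod_mul_distrib, Finset.prod_mul_distrib, Finset.prod_const,
            Finset.card_univ, Fintype.card_fin]
      _ ≤ _ := by
          apply Finset.prod_le_prod
          · intro j _
            exact mul_nonneg (by linarith) (mul_nonneg (by linarith [hw j]) (hN j).le)
          · intro j _
            exact h1 j
  have h3 : 1 - δ ≤ (1 - δ₁) * (1 - δ₁) ^ k := by
    have h4 : (1 : ℝ) + ((k + 1 : ℕ) : ℝ) * (-δ₁) ≤ (1 + -δ₁) ^ (k + 1) :=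
      one_add_mul_le_pow (by linarith) _
    have h5 : ((k + 1 : ℕ) : ℝ) * δ₁ = δ / 8 := by
      rw [hδ₁]
      push_cast
      field_simp
    rw [pow_succ'] at h4
    have h6 : (1 : ℝ) + -δ₁ = 1 - δ₁ := by ring
    rw [h6] at h4
    linarith
  have hd2 : 0 ≤ 1 - δ₁ := by linarith
  have h4 : (∏ j, N j) * ((1 - δ) * ((∏ j, w j) * P)) ≤ (∏ j, N j) * S := by
    calc (∏ j, N j) * ((1 - δ) * ((∏ j, w j) * P)) =
          (1 - δ) * ((∏ j, N j) * ((∏ j, w j) * P)) := by ring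
      _ ≤ ((1 - δ₁) * (1 - δ₁) ^ k) * ((∏ j, N j) * ((∏ j, w j) * P)) :=
          mul_le_mul_of_nonneg_right h3 (by positivity)
      _ = ((1 - δ₁) * P) * ((1 - δ₁) ^ k * ((∏ j, w j) * ∏ j, N j)) := by ring
      _ ≤ Pm * ∏ j, (w j * N j - E j) := by
          have h5 : (1 - δ₁) * P ≤ Pm :=
            (mul_le_mul_of_nonneg_right (by linarith) hP).trans hPm
          exact mul_le_mul h5 h2 (by positivity) (le_trans (by positivity) h5)
      _ ≤ _ := h
  exact le_of_mul_le_mul_left h4 hNp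

theorem log_ge {H d m : ℕ} (hH : 1 ≤ H) (hm : 9 ≤ m) :
    Real.log H + d ≤ Real.log ((16 * H * m ^ d : ℕ) : ℝ) := by
  have hHr : (0 : ℝ) < H := by exact_mod_cast hH
  have hmr : (9 : ℝ) ≤ m := by exact_mod_cast hm
  have h1 : 1 ≤ Real.log m := by
    rw [Real.le_log_iff_exp_le (by linarith)]
    have := Real.exp_one_lt_d9
    linarith
  have h2 : 0 ≤ Real.log 16 := Real.log_nonneg (by norm_num)
  push_cast
  rw [Real.log_mul (by positivity) (by positivity), Real.log_mul (by norm_num) hHr.ne',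
    Real.log_pow]
  have h3 : (d : ℝ) * 1 ≤ d * Real.log m := mul_le_mul_of_nonneg_left h1 (Nat.cast_nonneg d)
  linarith

theorem hMok (hKmu : StKmu) (hKml : StKml) (hCar : StCar) (hSzr : StSzr) (hApp : StApp)
    (hNuk : StNuk) : StMok := by
  intro k W C κ δ hW hC hκ hκ1 hδ hδ1
  obtain ⟨δ₁, hδ₁⟩ : ∃ δ₁ : ℝ, δ₁ = δ / (8 * (k + 1)) := ⟨_, rfl⟩
  have hk1 : (1 : ℝ) ≤ k + 1 := by
    have : (0 : ℝ) ≤ k := Nat.cast_nonneg k
    linarith
  have hd0 : 0 < δ₁ := by rw [hδ₁]; positivity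
  have hd1 : δ₁ ≤ 1 / 8 := by
    rw [hδ₁, div_le_iff₀ (by positivity)]
    nlinarith
  obtain ⟨H₁, hH₁⟩ := hNuk k W C κ δ₁ hW hC hκ hκ1 hd0 (by linarith)
  obtain ⟨x₀, hx₀⟩ := hApp (14 * (k + 1)) (4 * (k + 1))
  refine ⟨max (max H₁ x₀) 3, ?_⟩
  intro H hH d hd hkd hdH F A h hcond m hm hmj
  have hHH₁ : H₁ ≤ H := le_trans (le_trans (le_max_left _ _) (le_max_left _ _)) hH
  have hHx₀ : x₀ ≤ H := le_trans (le_trans (le_max_right _ _) (le_max_left _ _)) hH
  have hH3 : 3 ≤ H := le_trans (le_max_right _ _) hH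
  have hH1 : 1 ≤ H := by omega
  obtain ⟨B, M, n1, n2, n3, n4, n5, n6, n7, n8⟩ := hH₁ H hHH₁ d hd hdH
  have hWr : (1 : ℝ) ≤ W := by exact_mod_cast hW
  have hHr : (3 : ℝ) ≤ H := by exact_mod_cast hH3
  have hMr : (1 : ℝ) ≤ M := by exact_mod_cast n1
  have hB1 : 1 ≤ B := n1.trans n3
  have hBr : (1 : ℝ) ≤ B := by exact_mod_cast hB1
  have hh₀ : 0 < κ * H / W := by positivity
  have hh : ∀ i, κ * H / W ≤ h i := by
    intro i
    rw [div_le_iff₀ (by linarith)]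
    have := hcond.2.1 i
    linarith
  have hP : (0 : ℝ) ≤ ∏ i, (h i : ℝ) := Finset.prod_nonneg (fun i _ => Nat.cast_nonneg _)
  have hm9 : ∀ j, 9 ≤ m j := by
    intro j
    have h1 : (8 : ℝ) < 8 / κ := by
      rw [lt_div_iff₀ hκ]; linarith
    have h2 : (9 : ℝ) < m j := by linarith [(hmj j).1]
    have h3 : 9 < m j := by exact_mod_cast h2
    omega
  have hmM : ∀ j, m j ≤ M := by
    intro j
    have h1 : (m j : ℝ) < M + 1 := lt_of_le_of_lt (hmj j).2.1 n2
    have h2 : m j < M + 1 := by exact_mod_cast h1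
    omega
  have hL0 : 0 ≤ Real.log H := Real.log_nonneg (by linarith)
  have hdr : (1 : ℝ) ≤ d := by exact_mod_cast hd
  have hΛ : 1 ≤ Real.log H + d := by linarith
  have hjd : ∀ j : Fin k, (j : ℕ) ≤ d := fun j => by
    have := j.2
    omega
  have hmpow : ∀ j : Fin k, m j ^ (d - (j : ℕ)) * m j ^ (j : ℕ) = m j ^ d := by
    intro j
    rw [← pow_add, Nat.sub_add_cancel (hjd j)]
  have hmjj : ∀ j : Fin k, m j ^ (j : ℕ) ≤ M ^ k := by
    intro j
    exact (Nat.pow_le_pow_left (hmM j) _).trans (Nat.pow_le_pow_right n1 j.2.le)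
  have hq1 : ∀ j, 1 ≤ qd m j := qd_pos hm
  have hqM : ∀ j, qd m j ≤ M ^ k := fun j => (qd_le m j).trans (hmjj j)
  have hWq : ∀ j, 1 ≤ W * qd m j := fun j => Nat.mul_pos hW (hq1 j)
  have hN1 : ∀ j, 1 ≤ Nj d B m j := by
    intro j
    unfold Nj
    exact Nat.mul_pos (pow_pos (by have := hm9 j; omega) _) hB1
  -- the numbers `x_j`, `E_j`
  obtain ⟨x, hx⟩ : ∃ x : Fin k → ℕ, ∀ j, x j = 16 * H * m j ^ d := ⟨_, fun _ => rfl⟩
  obtain ⟨E, hE⟩ : ∃ E : Fin k → ℝ, ∀ j, E j = 2 * (x j : ℝ) / Real.log (x j) ^ (14 * (k + 1)) :=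
    ⟨_, fun _ => rfl⟩
  have hlog : ∀ j, Real.log H + d ≤ Real.log (x j) := by
    intro j
    rw [hx j]
    exact log_ge hH1 (hm9 j)
  have hE0 : ∀ j, 0 ≤ E j := by
    intro j
    rw [hE j]
    have : 0 ≤ Real.log (x j) := by linarith [hlog j]
    positivity
  have hEN : ∀ j, E j ≤ δ₁ * (Nj d B m j : ℝ) := by
    intro j
    have hLp : 0 < (Real.log H + d) ^ (14 * (k + 1)) := pow_pos (by linarith) _
    have h1 : E j ≤ 2 * (x j : ℝ) / (Real.log H + d) ^ (14 * (k + 1)) := by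
      rw [hE j]
      exact div_le_div_of_nonneg_left (by positivity) hLp
        (pow_le_pow_left₀ (by linarith) (hlog j) _)
    refine h1.trans ?_
    rw [div_le_iff₀ hLp]
    have h2 : (m j : ℝ) ^ d = (m j : ℝ) ^ (d - (j : ℕ)) * (m j : ℝ) ^ (j : ℕ) := by
      exact_mod_cast (hmpow j).symm
    have h3 : (m j : ℝ) ^ (j : ℕ) ≤ (M : ℝ) ^ k := by exact_mod_cast hmjj j
    have h4 : 32 * (H : ℝ) * (m j : ℝ) ^ (j : ℕ) ≤
        B * (δ₁ * (Real.log H + d) ^ (14 * (k + 1))) :=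
      (mul_le_mul_of_nonneg_left h3 (by positivity)).trans n5
    have h5 : (x j : ℝ) = 16 * H * (m j : ℝ) ^ d := by
      rw [hx j]
      push_cast
      ring
    have h6 : (0 : ℝ) ≤ (m j : ℝ) ^ (d - (j : ℕ)) := by positivity
    unfold Nj
    push_cast
    rw [h5, h2]
    calc 2 * (16 * (H : ℝ) * ((m j : ℝ) ^ (d - (j : ℕ)) * (m j : ℝ) ^ (j : ℕ))) =
          (m j : ℝ) ^ (d - (j : ℕ)) * (32 * (H : ℝ) * (m j : ℝ) ^ (j : ℕ)) := by ring
      _ ≤ (m j : ℝ) ^ (d - (j : ℕ)) * (B * (δ₁ * (Real.log H + d) ^ (14 * (k + 1)))) :=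
          mul_le_mul_of_nonneg_left h4 h6
      _ = _ := by ring
  -- the hypotheses of the moment theorems
  have hKH : KHyp k d M B W m x E F A h := by
    refine ⟨hkd, hm, fun j => ⟨by have := hm9 j; omega, hmM j⟩, n3, hB1, hW, hE0, ?_, ?_,
      fun j => (hmj j).2.2⟩
    · intro j
      rw [hE j]
      apply hx₀
      · rw [hx j]
        have : 1 ≤ m j ^ d := Nat.one_le_pow _ _ (by have := hm9 j; omega)
        nlinarith
      · exact hWq j
      · have h1 : ((W * qd m j : ℕ) : ℝ) ≤ (W : ℝ) * (M : ℝ) ^ k := by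
          have h2 : W * qd m j ≤ W * M ^ k := Nat.mul_le_mul_left _ (hqM j)
          exact_mod_cast h2
        exact h1.trans (n6.trans (pow_le_pow_left₀ (by linarith) (hlog j) _))
    · intro a ha j
      obtain ⟨s1, s2⟩ := hSzr W H d (m j) ((M + 2) ^ k * B) κ δ₁ F A h hW hH1 hκ hκ1 hd0
        (by linarith) hcond (hmj j).1 n4 a ha
      have hmd : (1 : ℝ) ≤ (m j : ℝ) ^ d := by
        have : 1 ≤ m j ^ d := Nat.one_le_pow _ _ (by have := hm9 j; omega)
        exact_mod_cast this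
      constructor
      · have h1 : (M : ℝ) < ((ev (lin W F a) (m j) : ℤ) : ℝ) := by
          have h2 : κ * H / 4 ≤ κ * H * (m j : ℝ) ^ d / 4 := by
            have : κ * H * 1 ≤ κ * H * (m j : ℝ) ^ d :=
              mul_le_mul_of_nonneg_left hmd (by positivity)
            linarith
          linarith
        exact_mod_cast h1
      · have h1 : ((W * qd m j * Nj d B m j : ℕ) : ℝ) ≤ H * (m j : ℝ) ^ d := by
          have h2 : W * qd m j * Nj d B m j ≤ (W * B) * m j ^ d := by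
            unfold Nj
            calc W * qd m j * (m j ^ (d - (j : ℕ)) * B) ≤
                  W * m j ^ (j : ℕ) * (m j ^ (d - (j : ℕ)) * B) :=
                  Nat.mul_le_mul_right _ (Nat.mul_le_mul_left _ (qd_le m j))
              _ = (W * B) * (m j ^ (d - (j : ℕ)) * m j ^ (j : ℕ)) := by ring
              _ = _ := by rw [hmpow j]
          have h3 : ((W * qd m j * Nj d B m j : ℕ) : ℝ) ≤ ((W : ℝ) * B) * (m j : ℝ) ^ d := by
            exact_mod_cast h2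
          exact h3.trans (mul_le_mul_of_nonneg_right n7 (by positivity))
        have h5 : (x j : ℝ) = 16 * H * (m j : ℝ) ^ d := by
          rw [hx j]
          push_cast
          ring
        have h6 : ((ev (lin W F a) (m j) : ℤ) : ℝ) + ((W * qd m j * Nj d B m j : ℕ) : ℝ) ≤
            (x j : ℝ) + 1 := by
          have h7 : 0 ≤ (H : ℝ) * (m j : ℝ) ^ d := by positivity
          rw [h5]
          nlinarith
        exact_mod_cast h6
  -- the bounds for the boxes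
  obtain ⟨-, hcar⟩ := hCar d A h
  obtain ⟨car1, car2⟩ := hcar ((M + 2) ^ k * B) (κ * H / W) hh₀ hh
  have q0 : 2 * (((M + 2) ^ k * B : ℕ) : ℝ) * ((d : ℝ) + 1) ≤ δ₁ * (κ * H / W) := by
    linarith
  have q1 : 2 * (((M + 2) ^ k * B : ℕ) : ℝ) * ((d : ℝ) + 1) / (κ * H / W) ≤ δ₁ := by
    rw [div_le_iff₀ hh₀]; exact q0
  have q2 : 2 * (((M + 2) ^ k * B : ℕ) : ℝ) * ((d : ℝ) + 1) ≤ κ * H / W := by
    nlinarith
  have hRh : ∀ i, 2 * ((M + 2) ^ k * B) ≤ h i := by
    intro i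
    have h1 := hh i
    have h2 : 2 * (((M + 2) ^ k * B : ℕ) : ℝ) ≤
        2 * (((M + 2) ^ k * B : ℕ) : ℝ) * ((d : ℝ) + 1) := by
      have : (0 : ℝ) ≤ (((M + 2) ^ k * B : ℕ) : ℝ) := Nat.cast_nonneg _
      nlinarith
    have h3 : ((2 * ((M + 2) ^ k * B) : ℕ) : ℝ) ≤ (h i : ℝ) := by
      rw [Nat.cast_mul, Nat.cast_ofNat]
      linarith
    exact_mod_cast h3
  -- the main terms
  have hMt : ∀ j, Mt W d B m j =
      (((W * qd m j : ℕ) : ℝ) / Nat.totient (W * qd m j)) * (Nj d B m j : ℝ) := by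
    intro j
    unfold Mt
    ring
  have hw1 : ∀ j, (1 : ℝ) ≤ ((W * qd m j : ℕ) : ℝ) / Nat.totient (W * qd m j) := fun j =>
    one_le_ratio (hWq j)
  have hNp : ∀ j, (0 : ℝ) < (Nj d B m j : ℝ) := fun j => by
    have := hN1 j
    exact_mod_cast this
  have hEM : ∀ j : Fin k, E j ≤ Mt W d B m j := by
    intro j
    rw [hMt j]
    have h1 := hEN j
    have h2 := hw1 j
    have h3 := hNp j
    nlinarith [mul_le_mul_of_nonneg_right h2 h3.le]
  have u1 := hKmu k d M B W m x E F A h hKH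
  have l1 := hKml k d M B W m x E F A h hKH hRh hEM
  simp only [hMt] at u1 l1
  have U := coreU hNp hP hw1 hEN hE0 u1 car1 q1 hδ₁ hδ hδ1
  have L := coreL hNp hP hw1 hEN l1 (car2 q2) q1 hδ₁ hδ hδ1
  rw [abs_le]
  constructor <;> linarith

end Pool.Agent.Helper79.PL
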